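import Mathlib

/-!
# Double covers of the grid by proper boxes
-/

set_option autoImplicit false

namespace Pool.Agent.H18DC

/-- The box `A 0 × ⋯ × A (d-1)` of the grid `[n]^d` is proper: no side is empty and no side is `[n]`. -/
def Proper {n d : ℕ} (A : Fin d → Finset (Fin n)) : Prop :=
  ∀ i, (A i).Nonempty ∧ A i ≠ Finset.univ

/-- The `m` boxes `B j` (repetitions allowed) are proper and every point of the grid `[n]^d` lies in
exactly two of them, counted with multiplicity. -/
def IsDoubleCover {n d m : ℕ} (B : Fin m → Fin d → Finset (Fin n)) : Prop :=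
  (∀ j, Proper (B j)) ∧
    ∀ x : Fin d → Fin n, (Finset.univ.filter fun j => ∀ i, x i ∈ B j i).card = 2

/-- The least number of proper boxes in a double cover of `[n]^d`. -/
noncomputable def g (n d : ℕ) : ℕ :=
  sInf {m | ∃ B : Fin m → Fin d → Finset (Fin n), IsDoubleCover B}

/-- There are `s` proper boxes of weight `1` and `t` proper boxes of weight `2` such that every point
of the grid `[n]^k` is covered with the total weight exactly `2`. -/
def WeightedCover (n k s t : ℕ) : Prop :=
  ∃ (S : Fin s → Fin k → Finset (Fin n)) (T : Fin t → Fin k → Finset (Fin n)),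
    (∀ j, Proper (S j)) ∧ (∀ j, Proper (T j)) ∧
    ∀ x : Fin k → Fin n, (Finset.univ.filter fun j => ∀ i, x i ∈ S j i).card
      + 2 * (Finset.univ.filter fun j => ∀ i, x i ∈ T j i).card = 2

end Pool.Agent.H18DC
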