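import Mathlib
import Pool.Agent.H18DC.Defs

/-!
# Upper bounds for double covers: gluing weighted covers
-/

set_option autoImplicit false

namespace Pool.Agent.H18DC

open Finset

/-- The number of the boxes of the family `B` which contain the point `x`. -/
def cnt {n d : ℕ} {ι : Type} [Fintype ι] (B : ι → Fin d → Finset (Fin n)) (x : Fin d → Fin n) : ℕ :=
  ∑ j, if ∀ i, x i ∈ B j i then 1 else 0

theorem cnt_eq {n d m : ℕ} (B : Fin m → Fin d → Finset (Fin n)) (x : Fin d → Fin n) :
    cnt B x = (univ.filter fun j => ∀ i, x i ∈ B j i).card := by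
  unfold cnt
  rw [card_filter]

theorem cnt_equiv {n d : ℕ} {ι κ : Type} [Fintype ι] [Fintype κ] (e : κ ≃ ι)
    (B : ι → Fin d → Finset (Fin n)) (x : Fin d → Fin n) : cnt (fun j => B (e j)) x = cnt B x :=
  Equiv.sum_comp e (fun j => if ∀ i, x i ∈ B j i then 1 else 0)

theorem cnt_sum {n d : ℕ} {ι κ : Type} [Fintype ι] [Fintype κ]
    (B : ι → Fin d → Finset (Fin n)) (B' : κ → Fin d → Finset (Fin n)) (x : Fin d → Fin n) :
    cnt (Sum.elim B B') x = cnt B x + cnt B' x := by
  unfold cnt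
  rw [Fintype.sum_sum_type]
  rfl

theorem cnt_succ {n d s : ℕ} (B : Fin (s + 1) → Fin d → Finset (Fin n)) (x : Fin d → Fin n) :
    cnt B x = (if ∀ i, x i ∈ B 0 i then 1 else 0) + cnt (fun j : Fin s => B j.succ) x := by
  unfold cnt
  rw [Fin.sum_univ_succ]

theorem weighted_of {n k : ℕ} {ι κ : Type} [Fintype ι] [Fintype κ]
    (S : ι → Fin k → Finset (Fin n)) (T : κ → Fin k → Finset (Fin n))
    (hS : ∀ j, Proper (S j)) (hT : ∀ j, Proper (T j)) (h : ∀ x, cnt S x + 2 * cnt T x = 2) :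
    WeightedCover n k (Fintype.card ι) (Fintype.card κ) := by
  refine ⟨fun j => S ((Fintype.equivFin ι).symm j), fun j => T ((Fintype.equivFin κ).symm j),
    fun j => hS _, fun j => hT _, fun x => ?_⟩
  rw [← cnt_eq, ← cnt_eq, cnt_equiv, cnt_equiv]
  exact h x

/-- There is a double cover with `m` boxes. -/
def DC (n d m : ℕ) : Prop := ∃ B : Fin m → Fin d → Finset (Fin n), IsDoubleCover B

theorem double_of {n k : ℕ} {ι : Type} [Fintype ι] (B : ι → Fin k → Finset (Fin n))
    (hB : ∀ j, Proper (B j)) (h : ∀ x, cnt B x = 2) : DC n k (Fintype.card ι) := by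
  refine ⟨fun j => B ((Fintype.equivFin ι).symm j), fun j => hB _, fun x => ?_⟩
  rw [← cnt_eq, cnt_equiv]
  exact h x

/-! ### Products -/

/-- The product of two boxes. -/
def pr {n a b : ℕ} (A : Fin a → Finset (Fin n)) (B : Fin b → Finset (Fin n)) :
    Fin (a + b) → Finset (Fin n) := Fin.append A B

theorem pr_proper {n a b : ℕ} {A : Fin a → Finset (Fin n)} {B : Fin b → Finset (Fin n)}
    (hA : Proper A) (hB : Proper B) : Proper (pr A B) := by
  intro i
  refine Fin.addCases (fun i => ?_) (fun i => ?_) i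
  · unfold pr
    rw [Fin.append_left]
    exact hA i
  · unfold pr
    rw [Fin.append_right]
    exact hB i

theorem mem_pr {n a b : ℕ} (A : Fin a → Finset (Fin n)) (B : Fin b → Finset (Fin n))
    (x : Fin (a + b) → Fin n) : (∀ i, x i ∈ pr A B i) ↔
      (∀ i, x (Fin.castAdd b i) ∈ A i) ∧ ∀ i, x (Fin.natAdd a i) ∈ B i := by
  unfold pr
  constructor
  · intro h
    refine ⟨fun i => ?_, fun i => ?_⟩
    · have := h (Fin.castAdd b i)
      rwa [Fin.append_left] at this
    · have := h (Fin.natAdd a i)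
      rwa [Fin.append_right] at this
  · rintro ⟨h1, h2⟩ i
    refine Fin.addCases (fun i => ?_) (fun i => ?_) i
    · rw [Fin.append_left]
      exact h1 i
    · rw [Fin.append_right]
      exact h2 i

theorem ite_pr {n a b : ℕ} (A : Fin a → Finset (Fin n)) (B : Fin b → Finset (Fin n))
    (x : Fin (a + b) → Fin n) : (if ∀ i, x i ∈ pr A B i then 1 else 0 : ℕ) =
      (if ∀ i, x (Fin.castAdd b i) ∈ A i then 1 else 0)
        * (if ∀ i, x (Fin.natAdd a i) ∈ B i then 1 else 0) := by
  by_cases h1 : ∀ i, x (Fin.castAdd b i) ∈ A i <;> by_cases h2 : ∀ i, x (Fin.natAdd a i) ∈ B i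
  · rw [if_pos ((mem_pr A B x).2 ⟨h1, h2⟩), if_pos h1, if_pos h2]
  · rw [if_neg (fun h => h2 ((mem_pr A B x).1 h).2), if_neg h2, mul_zero]
  · rw [if_neg (fun h => h1 ((mem_pr A B x).1 h).1), if_neg h1, zero_mul]
  · rw [if_neg (fun h => h1 ((mem_pr A B x).1 h).1), if_neg h1, zero_mul]

theorem cnt_prod {n a b : ℕ} {ι κ : Type} [Fintype ι] [Fintype κ]
    (A : ι → Fin a → Finset (Fin n)) (B : κ → Fin b → Finset (Fin n)) (x : Fin (a + b) → Fin n) :
    cnt (fun j : ι × κ => pr (A j.1) (B j.2)) x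
      = cnt A (fun i => x (Fin.castAdd b i)) * cnt B (fun i => x (Fin.natAdd a i)) := by
  unfold cnt
  rw [Fintype.sum_prod_type, sum_mul_sum]
  simp_rw [ite_pr]

theorem cnt_left {n a b : ℕ} {ι : Type} [Fintype ι]
    (A : ι → Fin a → Finset (Fin n)) (B : Fin b → Finset (Fin n)) (x : Fin (a + b) → Fin n) :
    cnt (fun j : ι => pr (A j) B) x
      = cnt A (fun i => x (Fin.castAdd b i))
        * (if ∀ i, x (Fin.natAdd a i) ∈ B i then 1 else 0) := by
  unfold cnt
  rw [sum_mul]
  simp_rw [ite_pr]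

theorem cnt_right {n a b : ℕ} {κ : Type} [Fintype κ]
    (A : Fin a → Finset (Fin n)) (B : κ → Fin b → Finset (Fin n)) (x : Fin (a + b) → Fin n) :
    cnt (fun j : κ => pr A (B j)) x
      = (if ∀ i, x (Fin.castAdd b i) ∈ A i then 1 else 0)
        * cnt B (fun i => x (Fin.natAdd a i)) := by
  unfold cnt
  rw [mul_sum]
  simp_rw [ite_pr]

/-! ### The partition generated by a box -/

/-- The parts of the partition generated by the box `A`: the sides are those of `A` or their
complements. -/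
def part {n k : ℕ} (A : Fin k → Finset (Fin n)) (I : Fin k → Bool) : Fin k → Finset (Fin n) :=
  fun i => if I i then A i else (A i)ᶜ

theorem part_proper {n k : ℕ} {A : Fin k → Finset (Fin n)} (hA : Proper A) (I : Fin k → Bool) :
    Proper (part A I) := by
  intro i
  unfold part
  split_ifs
  · exact hA i
  · refine ⟨?_, ?_⟩
    · rw [nonempty_iff_ne_empty]
      intro h
      exact (hA i).2 (compl_eq_empty_iff _ |>.1 h)
    · intro h
      have := (hA i).1.ne_empty
      exact this (by rwa [compl_eq_univ_iff] at h)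

theorem cnt_part {n k : ℕ} (A : Fin k → Finset (Fin n)) (x : Fin k → Fin n) :
    cnt (part A) x = 1 := by
  unfold cnt
  rw [sum_eq_single (fun i => decide (x i ∈ A i))]
  · rw [if_pos]
    intro i
    unfold part
    by_cases h : x i ∈ A i <;> simp [h]
  · intro I _ hI
    rw [if_neg]
    intro h
    apply hI
    funext i
    have := h i
    unfold part at this
    by_cases h1 : I i
    · rw [if_pos h1] at this
      rw [h1]
      symm
      simpa using this
    · rw [if_neg h1, mem_compl] at this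
      have h2 : I i = false := by simpa using h1
      rw [h2]
      symm
      simpa using this
  · intro h
    exact absurd (mem_univ _) h

/-- The complement of the box `A` is partitioned into `2 ^ k - 1` proper boxes. -/
theorem cnt_compl {n k : ℕ} (A : Fin k → Finset (Fin n)) (x : Fin k → Fin n) :
    (if ∀ i, x i ∈ A i then 1 else 0)
      + cnt (fun I : {I : Fin k → Bool // I ≠ fun _ => true} => part A I.1) x = 1 := by
  have h := cnt_part A x
  unfold cnt at h ⊢
  rw [Fintype.sum_eq_add_sum_subtype_ne _ (fun _ : Fin k => true)] at h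
  simpa [part] using h

theorem card_compl (k : ℕ) : Fintype.card {I : Fin k → Bool // I ≠ fun _ => true} = 2 ^ k - 1 := by
  rw [Fintype.card_subtype_compl, Fintype.card_subtype_eq]
  simp

/-! ### Gluing -/

theorem glue {n k₁ k₂ s₁ s₂ t₁ t₂ : ℕ} (h₁ : WeightedCover n k₁ (s₁ + 1) t₁)
    (h₂ : WeightedCover n k₂ (s₂ + 1) t₂) :
    WeightedCover n (k₁ + k₂) (s₁ + s₂) (t₁ + t₂ + (2 ^ k₁ - 1) * (2 ^ k₂ - 1)) := by
  obtain ⟨S₁, T₁, hS₁, hT₁, hc₁⟩ := h₁
  obtain ⟨S₂, T₂, hS₂, hT₂, hc₂⟩ := h₂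
  have h := weighted_of (ι := Fin s₁ ⊕ Fin s₂)
    (κ := (Fin t₁ ⊕ Fin t₂) ⊕ ({I : Fin k₁ → Bool // I ≠ fun _ => true}
      × {I : Fin k₂ → Bool // I ≠ fun _ => true}))
    (Sum.elim (fun j => pr (S₁ j.succ) (S₂ 0)) (fun j => pr (S₁ 0) (S₂ j.succ)))
    (Sum.elim (Sum.elim (fun j => pr (T₁ j) (S₂ 0)) (fun j => pr (S₁ 0) (T₂ j)))
      (fun I => pr (part (S₁ 0) I.1.1) (part (S₂ 0) I.2.1)))
    (by
      rintro (j | j)
      · exact pr_proper (hS₁ _) (hS₂ _)
      · exact pr_proper (hS₁ _) (hS₂ _))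
    (by
      rintro ((j | j) | j)
      · exact pr_proper (hT₁ _) (hS₂ _)
      · exact pr_proper (hS₁ _) (hT₂ _)
      · exact pr_proper (part_proper (hS₁ _) _) (part_proper (hS₂ _) _))
    (by
      intro x
      rw [cnt_sum, cnt_sum, cnt_sum, cnt_left, cnt_right, cnt_left, cnt_right,
        cnt_prod (fun I : {I : Fin k₁ → Bool // I ≠ fun _ => true} => part (S₁ 0) I.1)
          (fun I : {I : Fin k₂ → Bool // I ≠ fun _ => true} => part (S₂ 0) I.1)]
      have a₁ := hc₁ (fun i => x (Fin.castAdd k₂ i))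
      have a₂ := hc₂ (fun i => x (Fin.natAdd k₁ i))
      rw [← cnt_eq, ← cnt_eq, cnt_succ] at a₁ a₂
      have b₁ := cnt_compl (S₁ 0) (fun i => x (Fin.castAdd k₂ i))
      have b₂ := cnt_compl (S₂ 0) (fun i => x (Fin.natAdd k₁ i))
      generalize cnt (fun j : Fin s₁ => S₁ j.succ) (fun i => x (Fin.castAdd k₂ i)) = σ₁ at *
      generalize cnt (fun j : Fin s₂ => S₂ j.succ) (fun i => x (Fin.natAdd k₁ i)) = σ₂ at *
      generalize cnt T₁ (fun i => x (Fin.castAdd k₂ i)) = τ₁ at *
      generalize cnt T₂ (fun i => x (Fin.natAdd k₁ i)) = τ₂ at *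
      generalize cnt (fun I : {I : Fin k₁ → Bool // I ≠ fun _ => true} => part (S₁ 0) I.1)
        (fun i => x (Fin.castAdd k₂ i)) = π₁ at *
      generalize cnt (fun I : {I : Fin k₂ → Bool // I ≠ fun _ => true} => part (S₂ 0) I.1)
        (fun i => x (Fin.natAdd k₁ i)) = π₂ at *
      by_cases e₁ : ∀ i, x (Fin.castAdd k₂ i) ∈ S₁ 0 i <;>
        by_cases e₂ : ∀ i, x (Fin.natAdd k₁ i) ∈ S₂ 0 i
      · rw [if_pos e₁] at *
        rw [if_pos e₂] at *
        have c₁ : π₁ = 0 := by omega
        rw [c₁]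
        omega
      · rw [if_pos e₁] at *
        rw [if_neg e₂] at *
        have c₁ : π₁ = 0 := by omega
        rw [c₁]
        omega
      · rw [if_neg e₁] at *
        rw [if_pos e₂] at *
        have c₂ : π₂ = 0 := by omega
        rw [c₂]
        omega
      · rw [if_neg e₁] at *
        rw [if_neg e₂] at *
        have c₁ : π₁ = 1 := by omega
        have c₂ : π₂ = 1 := by omega
        rw [c₁, c₂]
        omega)
  simp only [Fintype.card_sum, Fintype.card_fin, Fintype.card_prod, card_compl] at h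
  exact h

/-- The triangle: `[n]` is doubly covered by three proper sets. -/
theorem triangle {n : ℕ} (hn : 3 ≤ n) : WeightedCover n 1 3 0 := by
  have ha : (0 : ℕ) < n := by omega
  have hb : (1 : ℕ) < n := by omega
  have hc : (2 : ℕ) < n := by omega
  set a : Fin n := ⟨0, ha⟩
  set b : Fin n := ⟨1, hb⟩
  set c : Fin n := ⟨2, hc⟩
  have hab : a ≠ b := by simp [a, b, Fin.ext_iff]
  have hac : a ≠ c := by simp [a, c, Fin.ext_iff]
  have hbc : b ≠ c := by simp [b, c, Fin.ext_iff]
  refine ⟨![fun _ => {a, b}, fun _ => {a}ᶜ, fun _ => {b}ᶜ], fun j => j.elim0, ?_,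
    fun j => j.elim0, fun x => ?_⟩
  · intro j
    fin_cases j
    · intro i
      refine ⟨⟨a, by simp⟩, fun h => ?_⟩
      have := eq_univ_iff_forall.1 h c
      simp [hac.symm, hbc.symm] at this
    · intro i
      refine ⟨⟨b, by simp [hab.symm]⟩, fun h => ?_⟩
      have := eq_univ_iff_forall.1 h a
      simp at this
    · intro i
      refine ⟨⟨a, by simp [hab]⟩, fun h => ?_⟩
      have := eq_univ_iff_forall.1 h b
      simp at this
  · rw [← cnt_eq, ← cnt_eq]
    unfold cnt
    simp only [Fin.sum_univ_three, univ_eq_empty, sum_empty, mul_zero, add_zero]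
    have hf : ∀ A : Fin 1 → Finset (Fin n), (∀ i, x i ∈ A i) ↔ x 0 ∈ A 0 := fun A =>
      Fin.forall_fin_one
    simp only [hf]
    by_cases h1 : x 0 = a
    · simp [h1, hab]
    · by_cases h2 : x 0 = b
      · simp [h2, hab.symm]
      · simp [h1, h2]

/-- Weighted covers of `[n]^k` with `k + 2` boxes of weight `1` and `2 ^ k - k - 1` boxes of weight
`2`. -/
theorem family {n : ℕ} (hn : 3 ≤ n) (k : ℕ) :
    WeightedCover n (k + 1) (k + 3) (2 ^ (k + 1) - (k + 2)) := by
  induction k with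
  | zero => exact triangle hn
  | succ k ih =>
    have h := glue (s₁ := k + 2) (s₂ := 2) ih (triangle hn)
    have hk : k + 2 ≤ 2 ^ (k + 1) := by
      have : k + 1 < 2 ^ (k + 1) := Nat.lt_two_pow_self
      omega
    have e : 2 ^ (k + 1) - (k + 2) + 0 + (2 ^ (k + 1) - 1) * (2 ^ 1 - 1)
        = 2 ^ (k + 1 + 1) - (k + 1 + 2) := by
      rw [pow_succ 2 (k + 1)]
      omega
    rw [e] at h
    exact h

/-! ### The recursion -/

theorem recursion {n k d s t m : ℕ} (hn : 2 ≤ n) (h : WeightedCover n k s t)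
    (hm : DC n d m) : DC n (k + d) (s * 2 ^ d + t * m) := by
  obtain ⟨S, T, hS, hT, hc⟩ := h
  obtain ⟨B, hB, hB2⟩ := hm
  have h0 : (0 : ℕ) < n := by omega
  have h1 : (1 : ℕ) < n := by omega
  have hA : Proper (fun _ : Fin d => ({⟨0, h0⟩} : Finset (Fin n))) := by
    intro i
    refine ⟨⟨⟨0, h0⟩, by simp⟩, fun h => ?_⟩
    have := eq_univ_iff_forall.1 h ⟨1, h1⟩
    simp [Fin.ext_iff] at this
  have h := double_of (ι := (Fin s × (Fin d → Bool)) ⊕ (Fin t × Fin m))
    (Sum.elim (fun j => pr (S j.1) (part (fun _ : Fin d => ({⟨0, h0⟩} : Finset (Fin n))) j.2))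
      (fun j => pr (T j.1) (B j.2)))
    (by
      rintro (j | j)
      · exact pr_proper (hS _) (part_proper hA _)
      · exact pr_proper (hT _) (hB _))
    (by
      intro x
      rw [cnt_sum, cnt_prod, cnt_prod, cnt_part]
      have a := hc (fun i => x (Fin.castAdd d i))
      have b := hB2 (fun i => x (Fin.natAdd k i))
      rw [← cnt_eq] at b
      rw [← cnt_eq, ← cnt_eq] at a
      rw [b]
      omega)
  simp only [Fintype.card_sum, Fintype.card_fin, Fintype.card_prod, Fintype.card_fun,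
    Fintype.card_bool] at h
  exact h

/-- Two copies of a partition. -/
theorem exists_cover {n : ℕ} (hn : 2 ≤ n) (d : ℕ) : DC n d (2 ^ (d + 1)) := by
  have h0 : (0 : ℕ) < n := by omega
  have h1 : (1 : ℕ) < n := by omega
  have hA : Proper (fun _ : Fin d => ({⟨0, h0⟩} : Finset (Fin n))) := by
    intro i
    refine ⟨⟨⟨0, h0⟩, by simp⟩, fun h => ?_⟩
    have := eq_univ_iff_forall.1 h ⟨1, h1⟩
    simp [Fin.ext_iff] at this
  have h := double_of (ι := (Fin d → Bool) ⊕ (Fin d → Bool))
    (Sum.elim (part (fun _ : Fin d => ({⟨0, h0⟩} : Finset (Fin n))))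
      (part (fun _ : Fin d => ({⟨0, h0⟩} : Finset (Fin n)))))
    (by
      rintro (j | j)
      · exact part_proper hA _
      · exact part_proper hA _)
    (by
      intro x
      rw [cnt_sum, cnt_part])
  simp only [Fintype.card_sum, Fintype.card_fin, Fintype.card_fun, Fintype.card_bool] at h
  rwa [← two_mul, ← pow_succ'] at h

theorem g_spec {n : ℕ} (hn : 2 ≤ n) (d : ℕ) : DC n d (g n d) :=
  Nat.sInf_mem (s := {m | ∃ B : Fin m → Fin d → Finset (Fin n), IsDoubleCover B})
    ⟨_, exists_cover hn d⟩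

theorem g_le {n d m : ℕ} (h : DC n d m) : g n d ≤ m :=
  Nat.sInf_le h

theorem g_le_pow {n : ℕ} (hn : 2 ≤ n) (d : ℕ) : g n d ≤ 2 ^ (d + 1) := g_le (exists_cover hn d)

theorem g_rec {n k s t : ℕ} (hn : 2 ≤ n) (h : WeightedCover n k s t) (d : ℕ) :
    g n (k + d) ≤ s * 2 ^ d + t * g n d := g_le (recursion hn h (g_spec hn d))

end Pool.Agent.H18DC
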