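import Mathlib
import Pool.Agent.H18DC.Upper

/-!
# The growth of the number of boxes in a double cover
-/

set_option autoImplicit false

namespace Pool.Agent.H18DC

open Finset Filter Topology

/-- Normalised number of boxes. -/
noncomputable def a (n d : ℕ) : ℝ := (g n d : ℝ) / 2 ^ d

theorem a_nonneg (n d : ℕ) : 0 ≤ a n d := by unfold a; positivity

theorem a_le_two {n : ℕ} (hn : 2 ≤ n) (d : ℕ) : a n d ≤ 2 := by
  unfold a
  rw [div_le_iff₀ (by positivity)]
  have := g_le_pow hn d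
  calc (g n d : ℝ) ≤ ((2 ^ (d + 1) : ℕ) : ℝ) := by exact_mod_cast this
    _ = 2 * 2 ^ d := by push_cast; ring

theorem a_rec {n k s t : ℕ} (hn : 2 ≤ n) (h : WeightedCover n k s t) (d : ℕ) :
    a n (k + d) ≤ (s + t * a n d) / 2 ^ k := by
  unfold a
  have h1 := g_rec hn h d
  have h2 : (g n (k + d) : ℝ) ≤ s * 2 ^ d + t * g n d := by exact_mod_cast h1
  rw [div_le_div_iff₀ (by positivity) (by positivity), pow_add]
  have h3 : ((s : ℝ) + t * (g n d / 2 ^ d)) * (2 ^ k * 2 ^ d)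
      = (s * 2 ^ d + t * g n d) * 2 ^ k := by
    field_simp
  rw [h3]
  exact mul_le_mul_of_nonneg_right h2 (by positivity)

/-- Two boxes of weight `2` partition `[n]`. -/
theorem two_parts {n : ℕ} (hn : 2 ≤ n) : WeightedCover n 1 0 2 := by
  have h0 : (0 : ℕ) < n := by omega
  have h1 : (1 : ℕ) < n := by omega
  have hA : Proper (fun _ : Fin 1 => ({⟨0, h0⟩} : Finset (Fin n))) := by
    intro i
    refine ⟨⟨⟨0, h0⟩, by simp⟩, fun h => ?_⟩
    have := eq_univ_iff_forall.1 h ⟨1, h1⟩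
    simp [Fin.ext_iff] at this
  have h := weighted_of (n := n) (k := 1) (ι := Fin 0) (κ := Fin 1 → Bool)
    (fun j => j.elim0) (part (fun _ : Fin 1 => ({⟨0, h0⟩} : Finset (Fin n))))
    (fun j => j.elim0) (fun I => part_proper hA I) (fun x => by
      rw [cnt_part]
      simp [cnt])
  simpa using h

theorem a_anti {n : ℕ} (hn : 2 ≤ n) : Antitone (a n) := by
  refine antitone_nat_of_succ_le fun d => ?_
  have h := a_rec hn (two_parts hn) d
  rw [add_comm 1 d] at h
  refine h.trans (le_of_eq ?_)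
  push_cast
  ring

/-- Convergence. -/
theorem a_lim {n : ℕ} (hn : 2 ≤ n) : ∃ L : ℝ, Tendsto (a n) atTop (𝓝 L) ∧ ∀ d, L ≤ a n d := by
  have hb : BddBelow (Set.range (a n)) := ⟨0, by rintro _ ⟨d, rfl⟩; exact a_nonneg n d⟩
  exact ⟨_, tendsto_atTop_ciInf (a_anti hn) hb, fun d => ciInf_le hb d⟩

/-- The limit satisfies the inequality given by every weighted cover. -/
theorem lim_le {n k s t : ℕ} (hn : 2 ≤ n) (h : WeightedCover n k s t) {L : ℝ}
    (hL : Tendsto (a n) atTop (𝓝 L)) : L ≤ (s + t * L) / 2 ^ k := by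
  have h1 : Tendsto (fun d => a n (k + d)) atTop (𝓝 L) := by
    have := (tendsto_add_atTop_iff_nat k).2 hL
    refine this.congr fun d => ?_
    rw [add_comm]
  have h2 : Tendsto (fun d => ((s : ℝ) + t * a n d) / 2 ^ k) atTop (𝓝 ((s + t * L) / 2 ^ k)) :=
    ((hL.const_mul _).const_add _).div_const _
  exact le_of_tendsto_of_tendsto' h1 h2 fun d => a_rec hn h d

/-- The limit is at most `1` for `n ≥ 3`. -/
theorem lim_le_one {n : ℕ} (hn : 3 ≤ n) {L : ℝ} (hL : Tendsto (a n) atTop (𝓝 L)) : L ≤ 1 := by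
  have key : ∀ k : ℕ, L ≤ 1 + 1 / ((k : ℝ) + 1) := by
    intro k
    have h := lim_le (by omega : 2 ≤ n) (family hn k) hL
    have hk : k + 2 ≤ 2 ^ (k + 1) := by
      have : k + 1 < 2 ^ (k + 1) := Nat.lt_two_pow_self
      omega
    rw [le_div_iff₀ (by positivity), Nat.cast_sub hk] at h
    push_cast at h
    have h3 : L * (k + 2) ≤ k + 3 := by linarith
    have h4 : (0 : ℝ) < (k : ℝ) + 2 := by positivity
    have h5 : L ≤ 1 + 1 / ((k : ℝ) + 2) := by
      rw [show (1 : ℝ) + 1 / ((k : ℝ) + 2) = (k + 3) / (k + 2) by field_simp; ring,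
        le_div_iff₀ h4]
      exact h3
    refine h5.trans ?_
    have : 1 / ((k : ℝ) + 2) ≤ 1 / ((k : ℝ) + 1) :=
      one_div_le_one_div_of_le (by positivity) (by linarith)
    linarith
  have h2 : Tendsto (fun k : ℕ => (1 : ℝ) + 1 / ((k : ℝ) + 1)) atTop (𝓝 (1 + 0)) :=
    tendsto_one_div_add_atTop_nhds_zero_nat.const_add 1
  rw [add_zero] at h2
  exact ge_of_tendsto' h2 key

/-- The weighted form of the question. -/
theorem rigid {n : ℕ} (hn : 2 ≤ n) (hQ : ∀ d : ℕ, 1 ≤ d → 2 ^ d ≤ g n d) {k s t : ℕ}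
    (hs : 1 ≤ s) (h : WeightedCover n k s t) : 2 ^ k + 1 ≤ s + t := by
  by_contra hcon
  push Not at hcon
  -- at least two boxes of weight one
  have hs2 : 2 ≤ s := by
    obtain ⟨S, T, hS, hT, hc⟩ := h
    by_contra h2
    have h1 : s = 1 := by omega
    subst h1
    have hx : ∃ x : Fin k → Fin n, ∀ i, x i ∈ S 0 i := by
      choose x hx using fun i => (hS 0 i).1
      exact ⟨x, hx⟩
    obtain ⟨x, hx⟩ := hx
    have h3 := hc x
    have h4 : (univ.filter fun j => ∀ i, x i ∈ S j i).card = 1 := by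
      rw [card_eq_one]
      refine ⟨0, ?_⟩
      ext j
      simp only [mem_filter, mem_univ, true_and, mem_singleton]
      rw [Subsingleton.elim j 0]
      exact ⟨fun _ => rfl, fun _ => hx⟩
    omega
  obtain ⟨s', rfl⟩ : ∃ s', s = s' + 1 := ⟨s - 1, by omega⟩
  have h2 := glue h h
  obtain ⟨L, hL, hLa⟩ := a_lim hn
  have h3 := lim_le hn h2 hL
  have hL1 : 1 ≤ L := by
    refine ge_of_tendsto hL ?_
    filter_upwards [eventually_ge_atTop 1] with d hd
    unfold a
    rw [le_div_iff₀ (by positivity), one_mul]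
    exact_mod_cast hQ d hd
  have hp : 1 ≤ 2 ^ k := Nat.one_le_two_pow
  obtain ⟨q, hq⟩ : ∃ q, 2 ^ k = q + 1 := ⟨2 ^ k - 1, by omega⟩
  have hst : s' + t ≤ q := by omega
  have e : (2 ^ k - 1) = q := by omega
  rw [e] at h3
  have hp2 : (2 : ℝ) ^ (k + k) = ((q : ℝ) + 1) ^ 2 := by
    rw [pow_add]
    have : (2 : ℝ) ^ k = (q : ℝ) + 1 := by exact_mod_cast hq
    rw [this]
    ring
  rw [le_div_iff₀ (by positivity), hp2] at h3
  push_cast at h3
  have hst' : (s' : ℝ) + t ≤ q := by exact_mod_cast hst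
  have hs1 : (1 : ℝ) ≤ s' := by
    have : 1 ≤ s' := by omega
    exact_mod_cast this
  have ht0 : (0 : ℝ) ≤ t := Nat.cast_nonneg t
  have hq0 : (0 : ℝ) ≤ q := Nat.cast_nonneg q
  nlinarith

/-- The converse. -/
theorem rigid_conv {n : ℕ} (hn : 2 ≤ n)
    (h : ∀ k s t : ℕ, 1 ≤ s → WeightedCover n k s t → 2 ^ k + 1 ≤ s + t) (d : ℕ) :
    2 ^ d + 1 ≤ g n d := by
  obtain ⟨B, hB, hB2⟩ := g_spec hn d
  have hpos : 1 ≤ g n d := by
    by_contra h0
    have h1 : g n d = 0 := by omega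
    have hn0 : 0 < n := by omega
    have h3 := hB2 (fun _ => ⟨0, hn0⟩)
    have h4 := card_filter_le (univ : Finset (Fin (g n d))) (fun j => ∀ i, (fun _ : Fin d =>
      (⟨0, hn0⟩ : Fin n)) i ∈ B j i)
    rw [h3, card_univ, Fintype.card_fin, h1] at h4
    omega
  have h2 := h d (g n d) 0 hpos ⟨B, fun j => j.elim0, hB, fun j => j.elim0, fun x => by
    rw [hB2 x]
    simp⟩
  simpa using h2

end Pool.Agent.H18DC
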