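import Mathlib
import Pool.Agent.H18DC.Defs

/-!
# Lower bounds for double covers: contraction with functionals modulo 4
-/

set_option autoImplicit false

namespace Pool.Agent.H18DC

open Finset

/-- The size of a residue modulo `4`. -/
def vv (z : ZMod 4) : ℕ := if z = 2 then 2 else if z = 0 then 0 else 1

theorem vv_add (a b : ZMod 4) : vv (a + b) ≤ vv a + vv b := by
  revert a b
  decide

theorem vv_sum {ι : Type*} (s : Finset ι) (w : ι → ZMod 4) : vv (∑ j ∈ s, w j) ≤ ∑ j ∈ s, vv (w j) := by
  classical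
  induction s using Finset.induction_on with
  | empty =>
    have : vv 0 = 0 := by decide
    simp [this]
  | insert a s ha ih =>
    rw [sum_insert ha, sum_insert ha]
    exact (vv_add _ _).trans (by omega)

/-- The weight of a residue: `α` for the odd residues and `1` for `2`. -/
def wt (α : ℚ) (z : ZMod 4) : ℚ := if z = 2 then 1 else if z = 0 then 0 else α

theorem wt_half (z : ZMod 4) : wt (1 / 2) z = (vv z : ℚ) / 2 := by
  unfold wt vv
  split_ifs <;> norm_num

/-- `z` is odd -/
def od (z : ZMod 4) : Prop := z = 1 ∨ z = 3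

instance (z : ZMod 4) : Decidable (od z) := by unfold od; infer_instance

theorem od_mul_two (z : ZMod 4) (h : od z) : z * 2 = 2 := by
  revert z
  decide

theorem wt_two_mul (α : ℚ) (z : ZMod 4) : wt α (2 * z) = if od z then 1 else 0 := by
  have h : (od z ∧ 2 * z = 2) ∨ (¬ od z ∧ 2 * z = 0) := by
    revert z
    decide
  rcases h with ⟨h1, h2⟩ | ⟨h1, h2⟩
  · rw [h2, if_pos h1]
    simp [wt]
  · rw [h2, if_neg h1]
    unfold wt
    rw [if_neg (by decide), if_pos rfl]

theorem wt_odd_mul (α : ℚ) (w z : ZMod 4) (hw : od w) :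
    wt α (w * z) = α * (if od z then 1 else 0) + (if z = 2 then 1 else 0) := by
  have h : (od z ∧ w * z ≠ 2 ∧ w * z ≠ 0 ∧ z ≠ 2) ∨ (z = 2 ∧ w * z = 2 ∧ ¬ od z) ∨
      (z = 0 ∧ w * z = 0 ∧ ¬ od z ∧ z ≠ 2) := by
    revert w z
    decide
  unfold wt
  rcases h with ⟨h1, h2, h3, h4⟩ | ⟨h1, h2, h3⟩ | ⟨h1, h2, h3, h4⟩
  · rw [if_neg h2, if_neg h3, if_pos h1, if_neg h4]
    ring
  · rw [if_pos h2, if_neg h3, if_pos h1]
    ring
  · rw [h2, if_neg (by decide), if_pos rfl, if_neg h3, if_neg h4]
    ring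

theorem wt_cases (w : ZMod 4) : w = 0 ∨ w = 2 ∨ od w := by
  revert w
  decide

/-- The lower bound, for a system of functionals modulo `4` with the weights `P k`. -/
theorem lower {n : ℕ} {K : Type} [Fintype K] (P : K → ℚ) (hP : ∀ k, 0 ≤ P k) (hP1 : ∑ k, P k = 1)
    (c : K → Fin n → ZMod 4) (hc : ∀ k, P k ≠ 0 → od (∑ x, c k x)) (θ : ℚ) (hθ : 0 ≤ θ)
    (hodd : ∀ A : Finset (Fin n), A.Nonempty → A ≠ univ →
      ∑ k, P k * (if od (∑ x ∈ A, c k x) then 1 else 0) ≤ 1 / 2)
    (htwo : ∀ A : Finset (Fin n), A.Nonempty → A ≠ univ →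
      ∑ k, P k * (if (∑ x ∈ A, c k x) = 2 then 1 else 0) ≤ θ)
    (d : ℕ) : ∀ {ι : Type} [Fintype ι] (w : ι → ZMod 4) (B : ι → Fin d → Finset (Fin n)),
      (∀ j, Proper (B j)) →
      (∀ x : Fin d → Fin n, ∑ j, w j * (if ∀ i, x i ∈ B j i then 1 else 0) = 2) →
      2 ^ d ≤ ∑ j, wt (1 / 2 + 2 * θ * d) (w j) := by
  induction d with
  | zero =>
    intro ι _ w B _ h
    have h0 := h (fun i => i.elim0)
    have h1 : ∀ j, w j * (if ∀ i, (fun i : Fin 0 => (i.elim0 : Fin n)) i ∈ B j i then 1 else 0)
        = w j := fun j => by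
      rw [if_pos (fun i => i.elim0), mul_one]
    rw [sum_congr rfl fun j _ => h1 j] at h0
    have h2 := vv_sum univ w
    rw [h0] at h2
    have h3 : vv 2 = 2 := by decide
    rw [h3] at h2
    simp only [Nat.cast_zero, mul_zero, add_zero, pow_zero]
    rw [sum_congr rfl fun j _ => wt_half (w j), ← sum_div]
    have h4 : (2 : ℚ) ≤ ∑ j, (vv (w j) : ℚ) := by exact_mod_cast h2
    linarith
  | succ d ih =>
    intro ι _ w B hB h
    have key : ∀ k, P k * 2 ^ d ≤ ∑ j, P k * wt (1 / 2 + 2 * θ * d) (w j * ∑ a ∈ B j 0, c k a) := by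
      intro k
      rcases eq_or_ne (P k) 0 with h0 | h0
      · rw [h0]
        simp
      rw [← mul_sum]
      refine mul_le_mul_of_nonneg_left ?_ (hP k)
      refine ih (fun j => w j * ∑ a ∈ B j 0, c k a) (fun j i => B j i.succ)
        (fun j i => hB j i.succ) fun x => ?_
      have e : ∀ j, (w j * ∑ a ∈ B j 0, c k a) * (if ∀ i, x i ∈ B j i.succ then 1 else 0)
          = ∑ a, c k a * (w j * (if ∀ i, (Fin.cons a x : Fin (d + 1) → Fin n) i ∈ B j i
            then 1 else 0)) := by
        intro j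
        have e1 : ∀ a, (if ∀ i, (Fin.cons a x : Fin (d + 1) → Fin n) i ∈ B j i
            then (1 : ZMod 4) else 0) = (if a ∈ B j 0 then 1 else 0)
              * (if ∀ i, x i ∈ B j i.succ then 1 else 0) := by
          intro a
          simp only [Fin.forall_fin_succ, Fin.cons_zero, Fin.cons_succ]
          by_cases h1 : a ∈ B j 0 <;> by_cases h2 : ∀ i, x i ∈ B j i.succ <;> simp [h1, h2]
        simp_rw [e1]
        rw [mul_sum, sum_mul]
        have e2 : ∀ a, c k a * (w j * ((if a ∈ B j 0 then 1 else 0)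
            * (if ∀ i, x i ∈ B j i.succ then 1 else 0)))
            = if a ∈ B j 0 then w j * c k a * (if ∀ i, x i ∈ B j i.succ then 1 else 0) else 0 := by
          intro a
          split_ifs <;> ring
        simp_rw [e2]
        rw [← sum_filter, filter_mem_eq_inter, univ_inter]
      simp_rw [e]
      rw [sum_comm]
      simp_rw [← mul_sum, h]
      rw [← sum_mul]
      exact od_mul_two _ (hc k h0)
    have h1 : (2 : ℚ) ^ d ≤ ∑ k, ∑ j, P k * wt (1 / 2 + 2 * θ * d) (w j * ∑ a ∈ B j 0, c k a) := by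
      calc (2 : ℚ) ^ d = ∑ k, P k * 2 ^ d := by rw [← sum_mul, hP1, one_mul]
        _ ≤ _ := sum_le_sum fun k _ => key k
    rw [sum_comm] at h1
    have h2 : ∀ j, ∑ k, P k * wt (1 / 2 + 2 * θ * d) (w j * ∑ a ∈ B j 0, c k a)
        ≤ (1 / 2) * wt (1 / 2 + 2 * θ * (d + 1 : ℕ)) (w j) := by
      intro j
      have ho := hodd (B j 0) (hB j 0).1 (hB j 0).2
      have ht := htwo (B j 0) (hB j 0).1 (hB j 0).2
      have hα : (0 : ℚ) ≤ 1 / 2 + 2 * θ * d := by positivity
      rcases wt_cases (w j) with hw | hw | hw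
      · have h0 : ∀ α, wt α 0 = 0 := fun α => by
          unfold wt
          rw [if_neg (by decide), if_pos rfl]
        rw [hw, h0]
        simp [h0]
      · rw [hw]
        simp_rw [wt_two_mul]
        simp only [wt, if_true]
        linarith
      · simp_rw [wt_odd_mul _ _ _ hw]
        have hw2 : wt (1 / 2 + 2 * θ * (d + 1 : ℕ)) (w j) = 1 / 2 + 2 * θ * (d + 1 : ℕ) := by
          unfold wt
          rcases hw with h | h <;> rw [h, if_neg (by decide), if_neg (by decide)]
        rw [hw2]
        have e : ∑ k, P k * ((1 / 2 + 2 * θ * d) * (if od (∑ a ∈ B j 0, c k a) then 1 else 0)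
            + (if (∑ a ∈ B j 0, c k a) = 2 then 1 else 0))
            = (1 / 2 + 2 * θ * d) * (∑ k, P k * (if od (∑ a ∈ B j 0, c k a) then 1 else 0))
              + ∑ k, P k * (if (∑ a ∈ B j 0, c k a) = 2 then 1 else 0) := by
          rw [mul_sum, ← sum_add_distrib]
          exact sum_congr rfl fun k _ => by ring
        rw [e]
        push_cast
        nlinarith [mul_le_mul_of_nonneg_left ho hα]
    have h3 := h1.trans (sum_le_sum fun j _ => h2 j)
    rw [← mul_sum] at h3
    rw [pow_succ]
    linarith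

/-- A double cover satisfies the hypothesis of `lower` with all weights `1`. -/
theorem cover_mod {n d m : ℕ} {B : Fin m → Fin d → Finset (Fin n)} (hB : IsDoubleCover B)
    (x : Fin d → Fin n) :
    ∑ j, (1 : ZMod 4) * (if ∀ i, x i ∈ B j i then 1 else 0) = 2 := by
  simp only [one_mul]
  rw [← sum_filter, sum_const, hB.2 x]
  rfl

theorem wt_one (α : ℚ) : wt α 1 = α := by
  unfold wt
  rw [if_neg (by decide), if_neg (by decide)]

/-- The uniform distribution on the functionals with an odd sum. -/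
noncomputable def oN (n : ℕ) : ℚ := ∑ c : Fin n → ZMod 4, if od (∑ x, c x) then 1 else 0

theorem oN_pos {n : ℕ} (hn : 1 ≤ n) : 0 < oN n := by
  unfold oN
  have h : (0 : ℚ) < if od (∑ x, (Pi.single (⟨0, hn⟩ : Fin n) (1 : ZMod 4) : Fin n → ZMod 4) x)
      then 1 else 0 := by
    rw [Finset.sum_pi_single']
    simp [od]
  exact lt_of_lt_of_le h (single_le_sum
    (f := fun c : Fin n → ZMod 4 => if od (∑ x, c x) then (1 : ℚ) else 0)
    (fun c _ => by split_ifs <;> norm_num) (mem_univ _))

/-- The value of a random functional on a proper subset is uniformly distributed. -/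
theorem uniform {n : ℕ} (hn : 1 ≤ n) (A : Finset (Fin n)) (hA : A.Nonempty) (hA' : A ≠ univ)
    (v : ZMod 4) :
    ∑ c : Fin n → ZMod 4, (if od (∑ x, c x) then 1 / oN n else 0)
      * (if ∑ x ∈ A, c x = v then 1 else 0) = 1 / 4 := by
  obtain ⟨a, ha⟩ := hA
  obtain ⟨b, hb⟩ : ∃ b, b ∉ A := by
    by_contra h
    push Not at h
    exact hA' (eq_univ_iff_forall.2 h)
  set q : ZMod 4 → ℚ := fun v => ∑ c : Fin n → ZMod 4, (if od (∑ x, c x) then 1 / oN n else 0)
      * (if ∑ x ∈ A, c x = v then 1 else 0) with hq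
  have hstep : ∀ v, q (v + 1) = q v := by
    intro v
    simp only [hq]
    set u : Fin n → ZMod 4 := Pi.single a 1 - Pi.single b 1 with hu
    rw [← Equiv.sum_comp (Equiv.addRight u)]
    refine sum_congr rfl fun c _ => ?_
    have e1 : ∑ x, (Equiv.addRight u c) x = ∑ x, c x := by
      simp only [Equiv.coe_addRight, Pi.add_apply, sum_add_distrib, hu, Pi.sub_apply,
        sum_sub_distrib]
      rw [Finset.sum_pi_single', Finset.sum_pi_single']
      simp
    have e2 : ∑ x ∈ A, (Equiv.addRight u c) x = ∑ x ∈ A, c x + 1 := by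
      simp only [Equiv.coe_addRight, Pi.add_apply, sum_add_distrib, hu, Pi.sub_apply,
        sum_sub_distrib]
      rw [Finset.sum_pi_single', Finset.sum_pi_single']
      simp [ha, hb]
    rw [e1, e2]
    simp only [add_left_inj]
  have hsum : ∑ v, q v = 1 := by
    simp only [hq]
    rw [sum_comm]
    have : ∀ c : Fin n → ZMod 4, ∑ v, (if od (∑ x, c x) then 1 / oN n else 0)
        * (if ∑ x ∈ A, c x = v then 1 else 0)
        = (1 / oN n) * (if od (∑ x, c x) then 1 else 0) := by
      intro c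
      rw [← mul_sum, sum_ite_eq, if_pos (mem_univ _)]
      split_ifs <;> ring
    simp_rw [this]
    rw [← mul_sum]
    exact one_div_mul_cancel (oN_pos hn).ne'
  have h4 : ∑ v, q v = q 0 + q 1 + q 2 + q 3 := by
    rw [show (univ : Finset (ZMod 4)) = {0, 1, 2, 3} from by decide]
    rw [sum_insert (by decide), sum_insert (by decide), sum_insert (by decide), sum_singleton]
    ring
  have h1 : q 1 = q 0 := by simpa using hstep 0
  have h2 : q 2 = q 1 := by
    have := hstep 1
    rwa [show (1 : ZMod 4) + 1 = 2 from by decide] at this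
  have h3 : q 3 = q 2 := by
    have := hstep 2
    rwa [show (2 : ZMod 4) + 1 = 3 from by decide] at this
  have hall : ∀ v : ZMod 4, q v = q 0 := by
    intro v
    have : v = 0 ∨ v = 1 ∨ v = 2 ∨ v = 3 := by
      revert v
      decide
    rcases this with h | h | h | h <;> rw [h] <;> linarith
  show q v = 1 / 4
  rw [hall v]
  linarith

/-- The lower bound for all grids. -/
theorem lower_all {n d m : ℕ} (hn : 1 ≤ n) (B : Fin m → Fin d → Finset (Fin n))
    (hB : IsDoubleCover B) : 2 ^ (d + 1) ≤ (d + 1) * m := by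
  have h := lower (n := n) (K := Fin n → ZMod 4)
    (fun c => if od (∑ x, c x) then 1 / oN n else 0)
    (fun c => by
      have := oN_pos hn
      split_ifs <;> positivity)
    (by
      have : ∀ c : Fin n → ZMod 4, (if od (∑ x, c x) then 1 / oN n else 0)
          = (1 / oN n) * (if od (∑ x, c x) then 1 else 0) := fun c => by split_ifs <;> ring
      simp_rw [this]
      rw [← mul_sum]
      exact one_div_mul_cancel (oN_pos hn).ne')
    (fun c => c) (fun c hc => by
      by_contra h
      exact hc (if_neg h)) (1 / 4) (by norm_num)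
    (fun A hA hA' => by
      have e : ∀ c : Fin n → ZMod 4, (if od (∑ x ∈ A, c x) then (1 : ℚ) else 0)
          = (if ∑ x ∈ A, c x = 1 then 1 else 0) + (if ∑ x ∈ A, c x = 3 then 1 else 0) := by
        intro c
        generalize ∑ x ∈ A, c x = z
        have : z = 0 ∨ z = 1 ∨ z = 2 ∨ z = 3 := by
          revert z
          decide
        rcases this with h | h | h | h <;> rw [h]
        · rw [if_neg (by decide), if_neg (by decide), if_neg (by decide)]; norm_num
        · rw [if_pos (by decide), if_pos rfl, if_neg (by decide)]; norm_num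
        · rw [if_neg (by decide), if_neg (by decide), if_neg (by decide)]; norm_num
        · rw [if_pos (by decide), if_neg (by decide), if_pos rfl]; norm_num
      simp_rw [e, mul_add]
      rw [sum_add_distrib, uniform hn A hA hA' 1, uniform hn A hA hA' 3]
      norm_num)
    (fun A hA hA' => (uniform hn A hA hA' 2).le) d (fun _ : Fin m => 1) B hB.1
    (fun x => cover_mod hB x)
  simp_rw [wt_one] at h
  rw [sum_const, card_univ, Fintype.card_fin, nsmul_eq_mul] at h
  have h2 : (2 : ℚ) ^ (d + 1) ≤ (d + 1) * m := by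
    rw [pow_succ]
    linarith
  exact_mod_cast h2

/-- The functionals for `n = 3`: the three points, and the three lifts of the sum. -/
def c3 (k : Fin 6) (x : Fin 3) : ZMod 4 :=
  if k.val < 3 then (if k.val = x.val then 1 else 0) else (if k.val = x.val + 3 then 3 else 1)

/-- Their weights, times `12`. -/
def P3 (k : Fin 6) : ℕ := if k.val < 3 then 3 else 1

/-- The lower bound for `n = 3`. -/
theorem lower_three {d m : ℕ} (B : Fin m → Fin d → Finset (Fin 3))
    (hB : IsDoubleCover B) : 6 * 2 ^ d ≤ (d + 3) * m := by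
  have h1 : ∀ A : Finset (Fin 3), A.Nonempty → A ≠ univ →
      ∑ k, P3 k * (if od (∑ x ∈ A, c3 k x) then 1 else 0) ≤ 6 := by decide
  have h2 : ∀ A : Finset (Fin 3), A.Nonempty → A ≠ univ →
      ∑ k, P3 k * (if ∑ x ∈ A, c3 k x = 2 then 1 else 0) ≤ 1 := by decide
  have h3 : ∀ k, od (∑ x, c3 k x) := by decide
  have h4 : ∑ k, P3 k = 12 := by decide
  have h := lower (n := 3) (K := Fin 6) (fun k => (P3 k : ℚ) / 12) (fun k => by positivity)
    (by
      rw [← sum_div]
      have : (∑ k, (P3 k : ℚ)) = 12 := by exact_mod_cast h4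
      rw [this]
      norm_num)
    c3 (fun k _ => h3 k) (1 / 12) (by norm_num)
    (fun A hA hA' => by
      have := h1 A hA hA'
      have h5 : ∑ k, (P3 k : ℚ) * (if od (∑ x ∈ A, c3 k x) then 1 else 0) ≤ 6 := by exact_mod_cast this
      have e : ∀ k, (P3 k : ℚ) / 12 * (if od (∑ x ∈ A, c3 k x) then 1 else 0)
          = ((P3 k : ℚ) * (if od (∑ x ∈ A, c3 k x) then 1 else 0)) / 12 := fun k => by ring
      simp_rw [e]
      rw [← sum_div]
      linarith)
    (fun A hA hA' => by
      have := h2 A hA hA'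
      have h5 : ∑ k, (P3 k : ℚ) * (if ∑ x ∈ A, c3 k x = 2 then 1 else 0) ≤ 1 := by exact_mod_cast this
      have e : ∀ k, (P3 k : ℚ) / 12 * (if ∑ x ∈ A, c3 k x = 2 then 1 else 0)
          = ((P3 k : ℚ) * (if ∑ x ∈ A, c3 k x = 2 then 1 else 0)) / 12 := fun k => by ring
      simp_rw [e]
      rw [← sum_div]
      linarith) d (fun _ : Fin m => 1) B hB.1
    (fun x => cover_mod hB x)
  simp_rw [wt_one] at h
  rw [sum_const, card_univ, Fintype.card_fin, nsmul_eq_mul] at h
  have h2 : (6 : ℚ) * 2 ^ d ≤ (d + 3) * m := by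
    linarith
  exact_mod_cast h2

end Pool.Agent.H18DC
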